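import Mathlib

set_option autoImplicit false

/-!
Closed subspaces as kernels, for spaces which are a Hilbert space plus a separable space.
-/

namespace Q99.KP

open Topology

/-- Every closed subspace of `X` is the kernel of a bounded operator `X → X`. -/
def AnswersPositively (𝕜 : Type*) [RCLike 𝕜] (X : Type*) [NormedAddCommGroup X]
    [NormedSpace 𝕜 X] : Prop :=
  ∀ Y : Submodule 𝕜 X, IsClosed (Y : Set X) → ∃ T : X →L[𝕜] X, ∀ x, T x = 0 ↔ x ∈ Y

variable {𝕜 : Type*} [RCLike 𝕜] {V H : Type*} [NormedAddCommGroup V] [NormedSpace 𝕜 V]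
  [CompleteSpace V] [NormedAddCommGroup H] [InnerProductSpace 𝕜 H] [CompleteSpace H]

/-- Functionals separating a point of `closure (Z + V₀)` from `Z`. -/
lemma exists_functionals (V₀ Z : Submodule 𝕜 V) (hV₀ : TopologicalSpace.IsSeparable (V₀ : Set V))
    (hZ : IsClosed (Z : Set V)) : ∃ ψ : ℕ → (V →L[𝕜] 𝕜), (∀ n, ‖ψ n‖ ≤ 1) ∧
      (∀ n, ∀ z ∈ Z, ψ n z = 0) ∧
      ∀ φ ∈ (Z ⊔ V₀).topologicalClosure, (∀ n, ψ n φ = 0) → φ ∈ Z := by
  obtain ⟨c, hc, hcl⟩ := hV₀
  have hcne : c.Nonempty := by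
    by_contra h
    rw [Set.not_nonempty_iff_eq_empty] at h
    rw [h, closure_empty] at hcl
    exact hcl V₀.zero_mem
  obtain ⟨v, hv⟩ := hc.exists_eq_range hcne
  choose g hg1 hg2 using fun n => exists_dual_vector'' 𝕜 (Z.mkQL (v n))
  have hmk : ∀ w : V, ‖Z.mkQL w‖ ≤ ‖w‖ := fun w => by
    rw [Submodule.mkQL_apply]
    exact Submodule.Quotient.norm_mk_le Z w
  refine ⟨fun n => (g n).comp Z.mkQL, fun n => ?_, fun n z hz => ?_, fun φ hφ h0 => ?_⟩
  · refine ContinuousLinearMap.opNorm_le_bound _ zero_le_one fun w => ?_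
    have h1 := (g n).le_of_opNorm_le (hg1 n) (Z.mkQL w)
    rw [one_mul] at h1
    rw [one_mul]
    exact h1.trans (hmk w)
  · have : Z.mkQL z = 0 := by
      rw [Submodule.mkQL_apply]
      exact (Submodule.Quotient.mk_eq_zero Z).2 hz
    rw [ContinuousLinearMap.comp_apply, this, map_zero]
  · by_contra hφZ
    set d := ‖Z.mkQL φ‖ with hd
    have hd0 : 0 < d := by
      have h1 : ‖Z.mkQL φ‖ ≠ 0 := by
        rw [norm_ne_zero_iff, Submodule.mkQL_apply]
        intro h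
        exact hφZ ((Submodule.Quotient.mk_eq_zero Z).1 h)
      exact lt_of_le_of_ne (norm_nonneg _) (Ne.symm h1)
    obtain ⟨w, hw, hwd⟩ := Metric.mem_closure_iff.1 hφ (d / 8) (by positivity)
    obtain ⟨z, hz, v₀, hv₀, rfl⟩ := Submodule.mem_sup.1 hw
    obtain ⟨y, hy, hyd⟩ := Metric.mem_closure_iff.1 (hcl hv₀) (d / 8) (by positivity)
    rw [hv] at hy
    obtain ⟨n, rfl⟩ := hy
    have h1 : ‖φ - z - v n‖ < d / 4 := by
      have e : φ - z - v n = (φ - (z + v₀)) + (v₀ - v n) := by abel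
      rw [e]
      rw [dist_eq_norm] at hwd hyd
      exact (norm_add_le _ _).trans_lt (by linarith)
    have h2 : Z.mkQL (φ - z - v n) = Z.mkQL φ - Z.mkQL (v n) := by
      have hz0 : Z.mkQL z = 0 := by
        rw [Submodule.mkQL_apply]
        exact (Submodule.Quotient.mk_eq_zero Z).2 hz
      rw [map_sub, map_sub, hz0, sub_zero]
    have h3 : ‖Z.mkQL φ - Z.mkQL (v n)‖ < d / 4 := by
      rw [← h2]; exact (hmk _).trans_lt h1
    have h4 : g n (Z.mkQL φ) = 0 := h0 n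
    have h5 : ‖g n (Z.mkQL φ - Z.mkQL (v n))‖ < d / 4 := by
      have := (g n).le_of_opNorm_le (hg1 n) (Z.mkQL φ - Z.mkQL (v n))
      rw [one_mul] at this
      exact this.trans_lt h3
    rw [map_sub, h4, zero_sub, norm_neg, hg2, RCLike.norm_ofReal, abs_norm] at h5
    have h6 := norm_sub_norm_le (Z.mkQL φ) (Z.mkQL (v n))
    linarith

/-- If `V = closure(span f) + B(H)`, an operator `V → H` has kernel `closure (Z + V₀)`. -/
lemma exists_operator (V₀ Z : Submodule 𝕜 V) (B : H →L[𝕜] V)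
    (hdec : ∀ φ : V, ∃ b, φ - B b ∈ V₀) :
    ∃ R : V →L[𝕜] H, ∀ φ, R φ = 0 ↔ φ ∈ (Z ⊔ V₀).topologicalClosure := by
  set Z₁ := (Z ⊔ V₀).topologicalClosure with hZ₁
  have hcl : IsClosed (Z₁ : Set V) := Submodule.isClosed_topologicalClosure _
  have hmk0 : ∀ φ, Z₁.mkQL φ = 0 ↔ φ ∈ Z₁ := fun φ => by
    rw [Submodule.mkQL_apply]
    exact Submodule.Quotient.mk_eq_zero Z₁
  let ρ : H →L[𝕜] (V ⧸ Z₁) := Z₁.mkQL.comp B
  let N : Submodule 𝕜 H := (ρ : H →ₗ[𝕜] (V ⧸ Z₁)).ker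
  have hNcl : IsClosed (N : Set H) := by
    have : (N : Set H) = ρ ⁻¹' {0} := by
      ext b; simp [N]
    rw [this]
    exact isClosed_singleton.preimage ρ.continuous
  have hNc : CompleteSpace N := hNcl.completeSpace_coe
  let ρ' : Nᗮ →L[𝕜] (V ⧸ Z₁) := ρ.comp Nᗮ.subtypeL
  have hinj : (ρ' : Nᗮ →ₗ[𝕜] (V ⧸ Z₁)).ker = ⊥ := by
    rw [LinearMap.ker_eq_bot']
    intro b hb
    have h1 : (b : H) ∈ N := hb
    have h2 : (b : H) ∈ N ⊓ Nᗮ := ⟨h1, b.2⟩
    rw [Submodule.inf_orthogonal_eq_bot] at h2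
    exact Subtype.ext ((Submodule.mem_bot 𝕜).1 h2)
  have hsurj : (ρ' : Nᗮ →ₗ[𝕜] (V ⧸ Z₁)).range = ⊤ := by
    rw [LinearMap.range_eq_top]
    intro q
    obtain ⟨φ, rfl⟩ := Submodule.mkQ_surjective Z₁ q
    obtain ⟨b, hb⟩ := hdec φ
    have h1 : ρ b = Z₁.mkQ φ := by
      have h2 : φ - B b ∈ Z₁ :=
        Submodule.le_topologicalClosure _ (Submodule.mem_sup_right hb)
      have h3 := (hmk0 _).2 h2
      rw [map_sub, sub_eq_zero] at h3
      exact h3.symm
    obtain ⟨b₁, hb₁, b₂, hb₂, hbb⟩ := Submodule.exists_add_mem_mem_orthogonal (K := N) b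
    refine ⟨⟨b₂, hb₂⟩, ?_⟩
    have h4 : ρ b = ρ b₂ := by
      rw [hbb, map_add]
      have : ρ b₁ = 0 := hb₁
      rw [this, zero_add]
    change ρ b₂ = _
    rw [← h4, h1]
  let e := ContinuousLinearEquiv.ofBijective ρ' hinj hsurj
  refine ⟨Nᗮ.subtypeL.comp ((e.symm : (V ⧸ Z₁) →L[𝕜] Nᗮ).comp Z₁.mkQL), fun φ => ?_⟩
  rw [← hmk0]
  constructor
  · intro h
    have h1 : e.symm (Z₁.mkQL φ) = 0 := Subtype.ext h
    simpa using h1
  · intro h
    change ((e.symm (Z₁.mkQL φ) : Nᗮ) : H) = 0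
    rw [h, map_zero]
    rfl

theorem kernel_of_decomp (f : ℕ → V) (hf : ∀ n, ‖f n‖ ≤ 1) (e : ℕ → (V →L[𝕜] 𝕜))
    (hef : ∀ m n, e m (f n) = if m = n then 1 else 0)
    (B : H →L[𝕜] V) (hB : Function.Injective B) (heB : ∀ m b, e m (B b) = 0)
    (hdec : ∀ φ : V, ∃ b, φ - B b ∈ (Submodule.span 𝕜 (Set.range f)).topologicalClosure) :
    AnswersPositively 𝕜 V := by
  intro Z hZ
  set V₀ := (Submodule.span 𝕜 (Set.range f)).topologicalClosure with hV₀
  have hsep : TopologicalSpace.IsSeparable (V₀ : Set V) := by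
    have h1 : TopologicalSpace.IsSeparable (Set.range f) := (Set.countable_range f).isSeparable
    have h2 : TopologicalSpace.IsSeparable (Submodule.span 𝕜 (Set.range f) : Set V) := h1.span
    exact h2.closure
  obtain ⟨R, hR⟩ := exists_operator V₀ Z B hdec
  obtain ⟨ψ, hψ1, hψ2, hψ3⟩ := exists_functionals V₀ Z hsep hZ
  let t : ℕ → (V →L[𝕜] V) := fun n => ((1 / 2 : ℝ) ^ n : 𝕜) • (ψ n).smulRight (f n)
  have ht : ∀ n, ‖t n‖ ≤ (1 / 2 : ℝ) ^ n := by
    intro n
    simp only [t]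
    rw [norm_smul]
    have h1 : ‖((1 / 2 : ℝ) ^ n : 𝕜)‖ = (1 / 2 : ℝ) ^ n := by
      rw [norm_pow, RCLike.norm_ofReal, abs_of_pos (by norm_num)]
    rw [h1]
    have h2 : ‖(ψ n).smulRight (f n)‖ ≤ 1 := by
      rw [ContinuousLinearMap.norm_smulRight_apply]
      exact mul_le_one₀ (hψ1 n) (norm_nonneg _) (hf n)
    have h3 : (0 : ℝ) ≤ (1 / 2) ^ n := by positivity
    nlinarith
  have hsum : Summable t := Summable.of_norm_bounded
    (summable_geometric_of_lt_one (by norm_num) (by norm_num : (1 / 2 : ℝ) < 1)) ht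
  have happ : ∀ φ, HasSum (fun n => t n φ) ((∑' n, t n) φ) := fun φ =>
    hsum.hasSum.mapL (ContinuousLinearMap.apply 𝕜 V φ)
  have hem : ∀ m φ, e m ((∑' n, t n) φ) = ((1 / 2 : ℝ) ^ m : 𝕜) * ψ m φ := by
    intro m φ
    have h1 := (happ φ).mapL (e m)
    have h2 : HasSum (fun n => e m (t n φ)) (((1 / 2 : ℝ) ^ m : 𝕜) * ψ m φ) := by
      have h3 : ∀ n, n ≠ m → e m (t n φ) = 0 := by
        intro n hn
        simp only [t, ContinuousLinearMap.smul_apply, ContinuousLinearMap.smulRight_apply,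
          map_smul, hef, if_neg (Ne.symm hn), smul_zero]
      have h4 := hasSum_single (f := fun n => e m (t n φ)) m h3
      convert! h4 using 1
      simp [t, hef]
    exact h1.unique h2
  refine ⟨(∑' n, t n) + B.comp R, fun φ => ⟨fun h => ?_, fun h => ?_⟩⟩
  · have h1 : (∑' n, t n) φ + B (R φ) = 0 := h
    have h2 : ∀ m, ψ m φ = 0 := by
      intro m
      have h3 := congrArg (e m) h1
      rw [map_add, hem, heB, add_zero, map_zero] at h3
      rcases mul_eq_zero.1 h3 with h4 | h4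
      · exfalso
        have h5 : ((1 / 2 : ℝ) : 𝕜) ≠ 0 := by
          rw [Ne, RCLike.ofReal_eq_zero]; norm_num
        exact pow_ne_zero m h5 h4
      · exact h4
    have h3 : (∑' n, t n) φ = 0 := by
      have h4 : ∀ n, t n φ = 0 := fun n => by
        simp [t, h2 n]
      have h5 := happ φ
      simp only [h4] at h5
      exact h5.unique hasSum_zero
    rw [h3, zero_add] at h1
    have h4 : R φ = 0 := hB (by rw [h1, map_zero])
    exact hψ3 φ ((hR φ).1 h4) h2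
  · have h1 : R φ = 0 := (hR φ).2 (Submodule.le_topologicalClosure _ (Submodule.mem_sup_left h))
    have h2 : (∑' n, t n) φ = 0 := by
      have h4 : ∀ n, t n φ = 0 := fun n => by
        simp [t, hψ2 n φ h]
      have h5 := happ φ
      simp only [h4] at h5
      exact h5.unique hasSum_zero
    change (∑' n, t n) φ + B (R φ) = 0
    rw [h1, h2, map_zero, add_zero]

end Q99.KP
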