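import Mathlib
import Pool.Agent.Q99.KP.Abs

set_option autoImplicit false
set_option synthInstance.maxHeartbeats 400000

/-!
Abstract form: the dual of a Johnson-Lindenstrauss type space answers the kernel problem positively.
-/

namespace Q99.KP

open Topology
open scoped ENNReal

section

variable {𝕜 : Type*} [RCLike 𝕜] {Γ : Type*} {J : Type*} [NormedAddCommGroup J] [NormedSpace 𝕜 J]

/-- The functional given by a square summable family. -/
noncomputable def bb (s : J →L[𝕜] lp (fun _ : Γ => 𝕜) 2) (b : lp (fun _ : Γ => 𝕜) 2) :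
    J →L[𝕜] 𝕜 :=
  (innerSL 𝕜 (star b)).comp s

lemma bb_apply (s : J →L[𝕜] lp (fun _ : Γ => 𝕜) 2) (b : lp (fun _ : Γ => 𝕜) 2) (w : J) :
    bb s b w = inner 𝕜 (star b) (s w) := rfl

/-- The operator. -/
noncomputable def BB (s : J →L[𝕜] lp (fun _ : Γ => 𝕜) 2) :
    lp (fun _ : Γ => 𝕜) 2 →L[𝕜] (J →L[𝕜] 𝕜) :=
  LinearMap.mkContinuous
    { toFun := bb s
      map_add' := fun b b' => by
        ext w
        rw [add_apply, bb_apply, bb_apply, bb_apply, star_add, inner_add_left]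
      map_smul' := fun c b => by
        ext w
        rw [smul_apply, bb_apply, bb_apply, star_smul, inner_smul_left]
        simp } ‖s‖
    (fun b => by
      refine ContinuousLinearMap.opNorm_le_bound _ (by positivity) fun w => ?_
      change ‖bb s b w‖ ≤ _
      rw [bb_apply]
      refine (norm_inner_le_norm _ _).trans ?_
      rw [norm_star]
      calc ‖b‖ * ‖s w‖ ≤ ‖b‖ * (‖s‖ * ‖w‖) :=
            mul_le_mul_of_nonneg_left (s.le_opNorm w) (norm_nonneg _)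
        _ = ‖s‖ * ‖b‖ * ‖w‖ := by ring)

lemma BB_apply (s : J →L[𝕜] lp (fun _ : Γ => 𝕜) 2) (b : lp (fun _ : Γ => 𝕜) 2) (w : J) :
    BB s b w = inner 𝕜 (star b) (s w) := rfl

open Classical in
/-- The list of properties of a Johnson-Lindenstrauss type space. -/
structure JLike (x : ℕ → J) (g : Γ → J) (f : ℕ → J →L[𝕜] 𝕜)
    (s : J →L[𝕜] lp (fun _ : Γ => 𝕜) 2) : Prop where
  ext : ∀ φ ψ : J →L[𝕜] 𝕜, (∀ n, φ (x n) = ψ (x n)) → (∀ γ, φ (g γ) = ψ (g γ)) → φ = ψ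
  sx : ∀ n, s (x n) = 0
  sg : ∀ γ, s (g γ) = lp.single 2 γ (1 : 𝕜)
  xsum : ∀ (F : Finset ℕ) (u : ℕ → 𝕜), (∀ n, ‖u n‖ ≤ 1) → ‖∑ n ∈ F, u n • x n‖ ≤ 1
  sq : ∀ φ : J →L[𝕜] 𝕜, (∀ n, φ (x n) = 0) → ∀ F : Finset Γ, ∑ γ ∈ F, ‖φ (g γ)‖ ^ 2 ≤ ‖φ‖ ^ 2
  fn : ∀ n, ‖f n‖ ≤ 1
  fx : ∀ n m, f n (x m) = if m = n then 1 else 0

variable {x : ℕ → J} {g : Γ → J} {f : ℕ → J →L[𝕜] 𝕜} {s : J →L[𝕜] lp (fun _ : Γ => 𝕜) 2}

namespace JLike

variable (h : JLike x g f s)
include h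

lemma BB_x (b : lp (fun _ : Γ => 𝕜) 2) (n : ℕ) : BB s b (x n) = 0 := by
  rw [BB_apply, h.sx]
  exact inner_zero_right _

lemma BB_g (b : lp (fun _ : Γ => 𝕜) 2) (γ : Γ) : BB s b (g γ) = b γ := by
  classical
  rw [BB_apply, h.sg, lp.inner_single_right, lp.star_apply]
  simp

lemma BB_inj : Function.Injective (BB s) := by
  refine (injective_iff_map_eq_zero _).2 fun b hb => ?_
  refine lp.ext (funext fun γ => ?_)
  rw [← h.BB_g b γ, hb]
  rfl

lemma c_sum_le (φ : J →L[𝕜] 𝕜) (F : Finset ℕ) : ∑ n ∈ F, ‖φ (x n)‖ ≤ ‖φ‖ := by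
  classical
  -- unimodular multipliers
  have hu : ∀ n, ∃ u : 𝕜, ‖u‖ ≤ 1 ∧ u * φ (x n) = (‖φ (x n)‖ : 𝕜) := by
    intro n
    by_cases h : φ (x n) = 0
    · exact ⟨0, by simp, by simp [h]⟩
    · refine ⟨(‖φ (x n)‖ : 𝕜) / φ (x n), ?_, ?_⟩
      · rw [norm_div, RCLike.norm_ofReal, abs_norm, div_self (norm_ne_zero_iff.2 h)]
      · rw [div_mul_cancel₀ _ h]
  choose u hu1 hu2 using hu
  have h1 : φ (∑ n ∈ F, u n • x n) = ((∑ n ∈ F, ‖φ (x n)‖ : ℝ) : 𝕜) := by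
    rw [map_sum]
    push_cast
    refine Finset.sum_congr rfl fun n _ => ?_
    rw [map_smul, smul_eq_mul, hu2]
  have h2 := h.xsum F u hu1
  have h3 := φ.le_opNorm (∑ n ∈ F, u n • x n)
  rw [h1, RCLike.norm_ofReal, abs_of_nonneg (Finset.sum_nonneg fun _ _ => norm_nonneg _)] at h3
  refine h3.trans ?_
  calc _ ≤ ‖φ‖ * 1 := mul_le_mul_of_nonneg_left h2 (norm_nonneg _)
    _ = ‖φ‖ := mul_one _

lemma dec (φ : J →L[𝕜] 𝕜) :
    ∃ b, φ - BB s b ∈ (Submodule.span 𝕜 (Set.range f)).topologicalClosure := by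
  classical
  have hc : Summable fun n => ‖φ (x n)‖ :=
    summable_of_sum_le (fun n => norm_nonneg _) (h.c_sum_le φ)
  have hs : Summable fun n => φ (x n) • f n := by
    refine Summable.of_norm_bounded hc fun n => ?_
    rw [norm_smul]
    exact mul_le_of_le_one_right (norm_nonneg _) (h.fn n)
  obtain ⟨φ₀, hφ₀⟩ := hs
  have hmem : φ₀ ∈ (Submodule.span 𝕜 (Set.range f)).topologicalClosure := by
    refine mem_closure_of_tendsto hφ₀ (Filter.Eventually.of_forall fun F => ?_)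
    exact Submodule.sum_mem _ fun n _ => Submodule.smul_mem _ _ (Submodule.subset_span ⟨n, rfl⟩)
  have hx : ∀ m, φ₀ (x m) = φ (x m) := by
    intro m
    have h1 := hφ₀.mapL (ContinuousLinearMap.apply 𝕜 𝕜 (x m))
    have h2 : (fun n => (ContinuousLinearMap.apply 𝕜 𝕜 (x m)) (φ (x n) • f n)) =
        fun n => if n = m then φ (x m) else 0 := by
      funext n
      rw [ContinuousLinearMap.apply_apply, smul_apply, h.fx, smul_eq_mul]
      by_cases h : m = n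
      · subst h; simp
      · rw [if_neg h, if_neg (Ne.symm h), mul_zero]
    rw [h2] at h1
    exact h1.unique (hasSum_ite_eq m (φ (x m)))
  have hψ : ∀ n, (φ - φ₀) (x n) = 0 := fun n => by
    rw [sub_apply, hx, sub_self]
  have hsum : Summable fun γ => ‖(φ - φ₀) (g γ)‖ ^ 2 :=
    summable_of_sum_le (fun γ => by positivity) (h.sq _ hψ)
  have hmem2 : Memℓp (fun γ => (φ - φ₀) (g γ)) 2 := by
    refine memℓp_gen ?_
    simpa using hsum
  let b : lp (fun _ : Γ => 𝕜) 2 := ⟨fun γ => (φ - φ₀) (g γ), hmem2⟩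
  refine ⟨b, ?_⟩
  have h3 : φ - φ₀ = BB s b := by
    refine h.ext _ _ (fun n => ?_) fun γ => ?_
    · rw [hψ, h.BB_x]
    · rw [h.BB_g]
  have h4 : φ - BB s b = φ₀ := by rw [← h3]; abel
  rw [h4]
  exact hmem

theorem dual_answers : AnswersPositively 𝕜 (J →L[𝕜] 𝕜) := by
  refine kernel_of_decomp f h.fn
    (fun m => ContinuousLinearMap.apply 𝕜 𝕜 (x m)) (fun m n => ?_) (BB s) h.BB_inj
    (fun m b => ?_) h.dec
  · rw [ContinuousLinearMap.apply_apply]
    exact h.fx n m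
  · rw [ContinuousLinearMap.apply_apply]
    exact h.BB_x b m

end JLike

end

end Q99.KP
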