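import Mathlib
import Pool.Agent.Q99.KP.Abs

set_option autoImplicit false
set_option synthInstance.maxHeartbeats 400000

/-!
The Johnson-Lindenstrauss space of an almost disjoint family.
-/

namespace Q99.KP

open Topology
open scoped ENNReal

/-- Almost disjoint families. -/
structure AD {Γ : Type*} (A : Γ → Set ℕ) : Prop where
  inf : ∀ γ, (A γ).Infinite
  ad : ∀ γ δ, γ ≠ δ → (A γ ∩ A δ).Finite

/-- An almost disjoint family indexed by `ℕ → Bool`. -/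
theorem exists_ad : ∃ A : (ℕ → Bool) → Set ℕ, AD A := by
  let p : (ℕ → Bool) → ℕ → List Bool := fun γ n => (List.range n).map γ
  have hp : ∀ γ n, (p γ n).length = n := fun γ n => by simp [p]
  refine ⟨fun γ => Set.range fun n => Encodable.encode (p γ n), fun γ => ?_, fun γ δ hγδ => ?_⟩
  · refine Set.infinite_range_of_injective fun n m h => ?_
    have h1 : p γ n = p γ m := Encodable.encode_injective h
    rw [← hp γ n, ← hp γ m, h1]
  · obtain ⟨k, hk⟩ : ∃ k, γ k ≠ δ k := by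
      by_contra hcon
      push Not at hcon
      exact hγδ (funext hcon)
    refine ((Set.finite_Iic k).image fun n => Encodable.encode (p γ n)).subset ?_
    rintro _ ⟨⟨n, rfl⟩, ⟨m, hm⟩⟩
    have h1 : p δ m = p γ n := Encodable.encode_injective hm
    have h2 : m = n := by rw [← hp δ m, ← hp γ n, h1]
    subst h2
    refine ⟨m, ?_, rfl⟩
    by_contra hlt
    rw [Set.mem_Iic, not_le] at hlt
    apply hk
    have h3 := congrArg (fun l => l[k]?) h1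
    simp only [p, List.getElem?_map, List.getElem?_range hlt, Option.map_some,
      Option.some.injEq] at h3
    exact h3.symm

section

variable (𝕜 : Type*) [RCLike 𝕜] (Γ : Type*)

/-- The ambient space. -/
abbrev WW := (lp (fun _ : ℕ => 𝕜) ∞) × (lp (fun _ : Γ => 𝕜) 2)

variable {𝕜 Γ}

/-- A bounded sequence. -/
def mkB (u : ℕ → 𝕜) (M : ℝ) (h : ∀ n, ‖u n‖ ≤ M) : lp (fun _ : ℕ => 𝕜) ∞ :=
  ⟨u, memℓp_infty ⟨M, by rintro _ ⟨n, rfl⟩; exact h n⟩⟩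

lemma mkB_apply (u : ℕ → 𝕜) (M : ℝ) (h : ∀ n, ‖u n‖ ≤ M) (n : ℕ) : mkB u M h n = u n := rfl

lemma ind_bound (A : Set ℕ) (n : ℕ) : ‖A.indicator (fun _ => (1 : 𝕜)) n‖ ≤ 1 := by
  by_cases h : n ∈ A <;> simp [h]

variable (𝕜) in
/-- Indicator functions. -/
noncomputable def ind (A : Set ℕ) : lp (fun _ : ℕ => 𝕜) ∞ := mkB _ 1 (ind_bound A)

lemma ind_mem {A : Set ℕ} {n : ℕ} (h : n ∈ A) : ind 𝕜 A n = 1 :=
  Set.indicator_of_mem h fun _ => (1 : 𝕜)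
lemma ind_not {A : Set ℕ} {n : ℕ} (h : n ∉ A) : ind 𝕜 A n = 0 :=
  Set.indicator_of_notMem h fun _ => (1 : 𝕜)

lemma norm_le_lp (u : lp (fun _ : ℕ => 𝕜) ∞) {r : ℝ} (hr : 0 ≤ r) (h : ∀ n, ‖u n‖ ≤ r) :
    ‖u‖ ≤ r := lp.norm_le_of_forall_le hr h

variable (𝕜 Γ) in
/-- The unit vectors of `c₀`. -/
noncomputable def xx (n : ℕ) : WW 𝕜 Γ := (ind 𝕜 {n}, 0)

open Classical in
/-- The vectors of the almost disjoint family. -/
noncomputable def gg (A : Γ → Set ℕ) (γ : Γ) : WW 𝕜 Γ :=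
  (ind 𝕜 (A γ), lp.single 2 γ (1 : 𝕜))

/-- The span of the generators. -/
noncomputable def X₀ (A : Γ → Set ℕ) : Submodule 𝕜 (WW 𝕜 Γ) :=
  Submodule.span 𝕜 (Set.range (xx 𝕜 Γ) ∪ Set.range (gg A))

variable (𝕜) in
/-- The Johnson-Lindenstrauss space. -/
noncomputable def JL (A : Γ → Set ℕ) : Submodule 𝕜 (WW 𝕜 Γ) := (X₀ A).topologicalClosure

lemma xx_mem₀ (A : Γ → Set ℕ) (n : ℕ) : xx 𝕜 Γ n ∈ X₀ A :=
  Submodule.subset_span (Or.inl ⟨n, rfl⟩)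
lemma gg_mem₀ (A : Γ → Set ℕ) (γ : Γ) : gg (𝕜 := 𝕜) A γ ∈ X₀ A :=
  Submodule.subset_span (Or.inr ⟨γ, rfl⟩)
lemma xx_mem (A : Γ → Set ℕ) (n : ℕ) : xx 𝕜 Γ n ∈ JL 𝕜 A :=
  Submodule.le_topologicalClosure _ (xx_mem₀ A n)
lemma gg_mem (A : Γ → Set ℕ) (γ : Γ) : gg A γ ∈ JL 𝕜 A :=
  Submodule.le_topologicalClosure _ (gg_mem₀ A γ)

lemma norm_coord (u : lp (fun _ : ℕ => 𝕜) ∞) (n : ℕ) : ‖u n‖ ≤ ‖u‖ :=
  lp.norm_apply_le_norm (by simp) u n

lemma norm_coord2 (a : lp (fun _ : Γ => 𝕜) 2) (γ : Γ) : ‖a γ‖ ≤ ‖a‖ :=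
  lp.norm_apply_le_norm (by norm_num) a γ

lemma single_self' (γ : Γ) [DecidableEq Γ] : (lp.single (E := fun _ : Γ => 𝕜) 2 γ (1 : 𝕜)) γ = 1 :=
  lp.single_apply_self (E := fun _ : Γ => 𝕜) 2 γ 1

lemma single_ne' {γ δ : Γ} [DecidableEq Γ] (h : δ ≠ γ) :
    (lp.single (E := fun _ : Γ => 𝕜) 2 γ (1 : 𝕜)) δ = 0 :=
  lp.single_apply_ne (E := fun _ : Γ => 𝕜) 2 γ 1 h

variable {A : Γ → Set ℕ} (hA : AD A)

include hA in
/-- Along `A γ`, the first coordinate agrees with the `γ`-th second coordinate. -/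
lemma agree {w : WW 𝕜 Γ} (hw : w ∈ X₀ (𝕜 := 𝕜) A) (γ : Γ) :
    ∃ S : Set ℕ, S.Finite ∧ ∀ n ∈ A γ, n ∉ S → w.1 n = w.2 γ := by
  classical
  induction hw using Submodule.span_induction with
  | mem w hw =>
    rcases hw with ⟨m, rfl⟩ | ⟨δ, rfl⟩
    · refine ⟨{m}, Set.finite_singleton m, fun n _ hn => ?_⟩
      change ind 𝕜 {m} n = (0 : lp (fun _ : Γ => 𝕜) 2) γ
      rw [ind_not hn]; rfl
    · by_cases h : γ = δ
      · subst h
        refine ⟨∅, Set.finite_empty, fun n hn _ => ?_⟩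
        change ind 𝕜 (A γ) n = (lp.single (E := fun _ : Γ => 𝕜) 2 γ (1 : 𝕜)) γ
        rw [ind_mem hn, single_self']
      · refine ⟨A γ ∩ A δ, hA.ad γ δ h, fun n hn hnS => ?_⟩
        change ind 𝕜 (A δ) n = (lp.single (E := fun _ : Γ => 𝕜) 2 δ (1 : 𝕜)) γ
        rw [ind_not fun h' => hnS ⟨hn, h'⟩, single_ne' h]
  | zero => exact ⟨∅, Set.finite_empty, fun n _ _ => rfl⟩
  | add v w _ _ hv hw =>
    obtain ⟨S, hS, h1⟩ := hv
    obtain ⟨S', hS', h2⟩ := hw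
    refine ⟨S ∪ S', hS.union hS', fun n hn hnS => ?_⟩
    rw [Set.mem_union, not_or] at hnS
    change v.1 n + w.1 n = v.2 γ + w.2 γ
    rw [h1 n hn hnS.1, h2 n hn hnS.2]
  | smul r w _ hw =>
    obtain ⟨S, hS, h1⟩ := hw
    refine ⟨S, hS, fun n hn hnS => ?_⟩
    change r • w.1 n = r • w.2 γ
    rw [h1 n hn hnS]

include hA in
lemma snd_le {w : WW 𝕜 Γ} (hw : w ∈ JL 𝕜 A) (γ : Γ) : ‖w.2 γ‖ ≤ ‖w.1‖ := by
  have hcl : IsClosed {w : WW 𝕜 Γ | ‖w.2 γ‖ ≤ ‖w.1‖} := by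
    refine isClosed_le ?_ (continuous_fst.norm)
    have h1 : Continuous fun a : lp (fun _ : Γ => 𝕜) 2 => a γ := by
      refine LipschitzWith.continuous (K := 1) (LipschitzWith.of_dist_le_mul fun a b => ?_)
      rw [dist_eq_norm, dist_eq_norm, NNReal.coe_one, one_mul]
      exact norm_coord2 (a - b) γ
    exact (h1.comp continuous_snd).norm
  refine closure_minimal ?_ hcl hw
  intro w hw
  obtain ⟨S, hS, h⟩ := agree hA hw γ
  obtain ⟨n, hn, hnS⟩ := ((hA.inf γ).sdiff hS).nonempty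
  change ‖w.2 γ‖ ≤ ‖w.1‖
  rw [← h n hn hnS]
  exact norm_coord w.1 n

/-- The coordinate functional. -/
noncomputable def fn (A : Γ → Set ℕ) (n : ℕ) : JL 𝕜 A →L[𝕜] 𝕜 :=
  LinearMap.mkContinuous
    { toFun := fun w => w.1.1 n
      map_add' := fun v w => rfl
      map_smul' := fun r w => rfl } 1
    (fun w => by
      rw [one_mul]
      exact (norm_coord w.1.1 n).trans (norm_fst_le w.1))

lemma fn_norm (A : Γ → Set ℕ) (n : ℕ) : ‖fn (𝕜 := 𝕜) A n‖ ≤ 1 :=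
  LinearMap.mkContinuous_norm_le _ zero_le_one _

lemma fn_apply (A : Γ → Set ℕ) (n : ℕ) (w : JL 𝕜 A) : fn A n w = w.1.1 n := rfl

/-- The generators in the space. -/
noncomputable def xJ (A : Γ → Set ℕ) (n : ℕ) : JL 𝕜 A := ⟨xx 𝕜 Γ n, xx_mem A n⟩
/-- The generators in the space. -/
noncomputable def gJ (A : Γ → Set ℕ) (γ : Γ) : JL 𝕜 A := ⟨gg A γ, gg_mem A γ⟩

lemma ext_fun {f g : JL 𝕜 A →L[𝕜] 𝕜} (h1 : ∀ n, f (xJ A n) = g (xJ A n))
    (h2 : ∀ γ, f (gJ A γ) = g (gJ A γ)) : f = g := by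
  have hd : Dense ((Submodule.span 𝕜 (Set.range (xJ (𝕜 := 𝕜) A) ∪ Set.range (gJ A)) :
      Submodule 𝕜 (JL 𝕜 A)) : Set (JL 𝕜 A)) := by
    intro x
    rw [closure_subtype]
    have h3 : ((↑) '' ((Submodule.span 𝕜 (Set.range (xJ (𝕜 := 𝕜) A) ∪ Set.range (gJ A)) :
        Submodule 𝕜 (JL 𝕜 A)) : Set (JL 𝕜 A)) : Set (WW 𝕜 Γ)) = ((X₀ A : Submodule 𝕜 (WW 𝕜 Γ)) : Set (WW 𝕜 Γ)) := by
      have h4 := Submodule.map_span (JL 𝕜 A).subtype (Set.range (xJ (𝕜 := 𝕜) A) ∪ Set.range (gJ A))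
      have h5 : (JL 𝕜 A).subtype '' (Set.range (xJ (𝕜 := 𝕜) A) ∪ Set.range (gJ A)) =
          Set.range (xx 𝕜 Γ) ∪ Set.range (gg A) := by
        rw [Set.image_union, ← Set.range_comp, ← Set.range_comp]; rfl
      rw [h5] at h4
      rw [X₀, ← h4]
      rfl
    rw [h3]
    exact x.2
  refine ContinuousLinearMap.ext_on hd ?_
  rintro _ (⟨n, rfl⟩ | ⟨γ, rfl⟩)
  · exact h1 n
  · exact h2 γ

lemma coe_sub' (A : Γ → Set ℕ) (x y : JL 𝕜 A) :
    ((x - y : JL 𝕜 A) : WW 𝕜 Γ) = (x : WW 𝕜 Γ) - (y : WW 𝕜 Γ) := rfl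

lemma norm_coe' (A : Γ → Set ℕ) (x : JL 𝕜 A) : ‖x‖ = max ‖(x : WW 𝕜 Γ).1‖ ‖(x : WW 𝕜 Γ).2‖ := rfl

lemma sum_g_fst (A : Γ → Set ℕ) (a : Γ → 𝕜) (G : Finset Γ) (n : ℕ) :
    ((∑ γ ∈ G, a γ • gJ A γ : JL 𝕜 A) : WW 𝕜 Γ).1 n = ∑ γ ∈ G, a γ * ind 𝕜 (A γ) n := by
  classical
  induction G using Finset.induction_on with
  | empty => simp
  | insert i G hi ih =>
    rw [Finset.sum_insert hi, Finset.sum_insert hi, ← ih]
    rfl

open Classical in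
lemma sum_g_snd (A : Γ → Set ℕ) (a : Γ → 𝕜) (G : Finset Γ) :
    ((∑ γ ∈ G, a γ • gJ A γ : JL 𝕜 A) : WW 𝕜 Γ).2 = ∑ γ ∈ G, lp.single 2 γ (a γ) := by
  induction G using Finset.induction_on with
  | empty => simp
  | insert i G hi ih =>
    rw [Finset.sum_insert hi, Finset.sum_insert hi, ← ih]
    have : lp.single (E := fun _ : Γ => 𝕜) 2 i (a i) = a i • lp.single 2 i (1 : 𝕜) := by
      rw [← lp.single_smul]; simp
    rw [this]
    rfl

lemma sum_x_fst (A : Γ → Set ℕ) (G : Finset ℕ) (b : ℕ → 𝕜) (n : ℕ) :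
    ((∑ m ∈ G, b m • xJ A m : JL 𝕜 A) : WW 𝕜 Γ).1 n = if n ∈ G then b n else 0 := by
  classical
  induction G using Finset.induction_on with
  | empty => simp
  | insert i G hi ih =>
    rw [Finset.sum_insert hi]
    change b i * ind 𝕜 {i} n + ((∑ m ∈ G, b m • xJ A m : JL 𝕜 A) : WW 𝕜 Γ).1 n = _
    rw [ih]
    by_cases h : n = i
    · subst h
      rw [ind_mem (Set.mem_singleton n), if_neg hi, if_pos (Finset.mem_insert_self _ _)]
      ring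
    · rw [ind_not (by simpa using h)]
      simp [h]

lemma sum_x_snd (A : Γ → Set ℕ) (G : Finset ℕ) (b : ℕ → 𝕜) :
    ((∑ m ∈ G, b m • xJ A m : JL 𝕜 A) : WW 𝕜 Γ).2 = 0 := by
  classical
  induction G using Finset.induction_on with
  | empty => simp
  | insert i G hi ih =>
    rw [Finset.sum_insert hi]
    change b i • (0 : lp (fun _ : Γ => 𝕜) 2) + ((∑ m ∈ G, b m • xJ A m : JL 𝕜 A) : WW 𝕜 Γ).2 = _
    rw [ih, smul_zero, zero_add]

/-- The finite set outside of which finitely many members are disjoint. -/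
lemma exists_exc (hA : AD A) (F : Finset Γ) :
    ∃ S : Finset ℕ, ∀ n, n ∉ S → ∀ γ ∈ F, ∀ δ ∈ F, n ∈ A γ → n ∈ A δ → γ = δ := by
  classical
  have hSfin : (⋃ γ ∈ F, ⋃ δ ∈ F, if γ = δ then (∅ : Set ℕ) else A γ ∩ A δ).Finite := by
    refine F.finite_toSet.biUnion fun γ _ => F.finite_toSet.biUnion fun δ _ => ?_
    by_cases h : γ = δ
    · rw [if_pos h]; exact Set.finite_empty
    · rw [if_neg h]; exact hA.ad γ δ h
  refine ⟨hSfin.toFinset, fun n hn γ hγ δ hδ h1 h2 => ?_⟩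
  by_contra hne
  apply hn
  rw [Set.Finite.mem_toFinset]
  simp only [Set.mem_iUnion]
  exact ⟨γ, hγ, δ, hδ, by rw [if_neg hne]; exact ⟨h1, h2⟩⟩

lemma l2_single_sum (a : Γ → 𝕜) (F : Finset Γ) [DecidableEq Γ] :
    ‖∑ γ ∈ F, lp.single (E := fun _ : Γ => 𝕜) 2 γ (a γ)‖ = Real.sqrt (∑ γ ∈ F, ‖a γ‖ ^ 2) := by
  have h4 := lp.norm_sum_single (p := 2) (E := fun _ : Γ => 𝕜) (by norm_num) a F
  simp only [ENNReal.toReal_ofNat, Real.rpow_ofNat] at h4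
  rw [← h4, Real.sqrt_sq (norm_nonneg _)]

/-- A good representative. -/
lemma exists_rep (hA : AD A) (F : Finset Γ) (a : Γ → 𝕜) :
    ∃ (S : Finset ℕ) (b : ℕ → 𝕜),
      ‖(∑ γ ∈ F, a γ • gJ A γ : JL 𝕜 A) - ∑ n ∈ S, b n • xJ A n‖ ≤
        Real.sqrt (∑ γ ∈ F, ‖a γ‖ ^ 2) := by
  classical
  obtain ⟨S, hS⟩ := exists_exc hA F
  refine ⟨S, fun n => ((∑ γ ∈ F, a γ • gJ A γ : JL 𝕜 A) : WW 𝕜 Γ).1 n, ?_⟩
  rw [norm_coe', coe_sub']
  refine max_le ?_ ?_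
  · refine norm_le_lp _ (Real.sqrt_nonneg _) fun n => ?_
    rw [Prod.fst_sub, lp.coeFn_sub, Pi.sub_apply, sum_x_fst]
    by_cases hn : n ∈ S
    · rw [if_pos hn, sub_self, norm_zero]; exact Real.sqrt_nonneg _
    · rw [if_neg hn, sub_zero, sum_g_fst]
      by_cases hex : ∃ γ ∈ F, n ∈ A γ
      · obtain ⟨γ, hγ, hnγ⟩ := hex
        rw [Finset.sum_eq_single γ]
        · rw [ind_mem hnγ, mul_one]
          refine Real.le_sqrt_of_sq_le ?_
          exact Finset.single_le_sum (f := fun γ => ‖a γ‖ ^ 2) (fun i _ => by positivity) hγ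
        · intro δ hδ hne
          rw [ind_not fun hnδ => hne (hS n hn δ hδ γ hγ hnδ hnγ), mul_zero]
        · intro h; exact absurd hγ h
      · push Not at hex
        rw [Finset.sum_eq_zero fun γ hγ => by rw [ind_not (hex γ hγ), mul_zero], norm_zero]
        exact Real.sqrt_nonneg _
  · rw [Prod.snd_sub, sum_x_snd, sub_zero, sum_g_snd]
    exact (l2_single_sum a F).le

/-- The key estimate. -/
lemma key (hA : AD A) (φ : JL 𝕜 A →L[𝕜] 𝕜) (hφ : ∀ n, φ (xJ A n) = 0)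
    (F : Finset Γ) (a : Γ → 𝕜) : ‖∑ γ ∈ F, a γ * φ (gJ A γ)‖ ≤
      ‖φ‖ * Real.sqrt (∑ γ ∈ F, ‖a γ‖ ^ 2) := by
  obtain ⟨S, b, hSb⟩ := exists_rep hA F a
  have hφw : φ ((∑ γ ∈ F, a γ • gJ A γ : JL 𝕜 A) - ∑ n ∈ S, b n • xJ A n) =
      ∑ γ ∈ F, a γ * φ (gJ A γ) := by
    simp only [map_sub, map_sum, map_smul, hφ, mul_zero, Finset.sum_const_zero, sub_zero,
      smul_eq_mul]
  rw [← hφw]
  exact (φ.le_opNorm _).trans (mul_le_mul_of_nonneg_left hSb (norm_nonneg _))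

lemma sq_sum_le (hA : AD A) (φ : JL 𝕜 A →L[𝕜] 𝕜) (hφ : ∀ n, φ (xJ A n) = 0)
    (F : Finset Γ) : ∑ γ ∈ F, ‖φ (gJ A γ)‖ ^ 2 ≤ ‖φ‖ ^ 2 := by
  classical
  have h1 := key hA φ hφ F fun γ => (starRingEnd 𝕜) (φ (gJ A γ))
  have h2 : ∀ γ, (starRingEnd 𝕜) (φ (gJ A γ)) * φ (gJ A γ) = ((‖φ (gJ A γ)‖ ^ 2 : ℝ) : 𝕜) := by
    intro γ
    rw [RCLike.conj_mul]; push_cast; rfl
  simp only [h2, RCLike.norm_conj] at h1
  rw [← RCLike.ofReal_sum, RCLike.norm_ofReal, abs_of_nonneg (by positivity)] at h1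
  set s := ∑ γ ∈ F, ‖φ (gJ A γ)‖ ^ 2 with hs
  have hs0 : 0 ≤ s := by positivity
  have h3 : Real.sqrt s * Real.sqrt s = s := Real.mul_self_sqrt hs0
  have h4 : Real.sqrt s ≤ ‖φ‖ := by
    by_cases h : Real.sqrt s = 0
    · rw [h]; exact norm_nonneg φ
    · have h5 : 0 < Real.sqrt s := lt_of_le_of_ne (Real.sqrt_nonneg _) (Ne.symm h)
      nlinarith
  have h5 := Real.sqrt_nonneg s
  nlinarith

/-- Functionals vanishing on `c₀` vanish at most generators. -/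
lemma countable_supp (hA : AD A) (φ : JL 𝕜 A →L[𝕜] 𝕜) (hφ : ∀ n, φ (xJ A n) = 0) :
    {γ | φ (gJ A γ) ≠ 0}.Countable := by
  have h1 : Summable fun γ => ‖φ (gJ A γ)‖ ^ 2 :=
    summable_of_sum_le (fun γ => by positivity) (sq_sum_le hA φ hφ)
  refine h1.countable_support.mono fun γ hγ => ?_
  rw [Function.mem_support]
  exact pow_ne_zero 2 (norm_ne_zero_iff.2 hγ)

/-- `c₀` is not the kernel of an operator. -/
theorem not_answers (hA : AD A) [Uncountable Γ] : ¬ AnswersPositively 𝕜 (JL 𝕜 A) := by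
  classical
  intro h
  let Z : Submodule 𝕜 (JL 𝕜 A) :=
    (Submodule.span 𝕜 (Set.range (xJ (𝕜 := 𝕜) A))).topologicalClosure
  obtain ⟨T, hT⟩ := h Z (Submodule.isClosed_topologicalClosure _)
  have hx : ∀ n, T (xJ A n) = 0 := fun n =>
    (hT _).2 (Submodule.le_topologicalClosure _ (Submodule.subset_span ⟨n, rfl⟩))
  have h1 : (⋃ m, {γ | ((fn A m).comp T) (gJ A γ) ≠ 0}).Countable :=
    Set.countable_iUnion fun m => countable_supp hA _ fun n => by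
      rw [ContinuousLinearMap.comp_apply, hx, map_zero]
  obtain ⟨γ, hγ⟩ : ∃ γ, γ ∉ ⋃ m, {γ | ((fn A m).comp T) (gJ A γ) ≠ 0} := by
    by_contra hcon
    push Not at hcon
    exact Set.not_countable_univ (h1.mono fun γ _ => hcon γ)
  have h2 : ∀ m, (T (gJ A γ)).1.1 m = 0 := by
    intro m
    by_contra hcon
    exact hγ (Set.mem_iUnion.2 ⟨m, hcon⟩)
  have h3 : (T (gJ A γ)).1.1 = 0 := lp.ext (funext h2)
  have h4 : (T (gJ A γ)).1.2 = 0 := by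
    refine lp.ext (funext fun δ => ?_)
    have := snd_le hA (T (gJ A γ)).2 δ
    rw [h3, norm_zero] at this
    exact norm_le_zero_iff.1 this
  have h5 : T (gJ A γ) = 0 := Subtype.ext (Prod.ext h3 h4)
  have h6 : gJ A γ ∈ Z := (hT _).1 h5
  have h7 : ∀ z ∈ Z, (z : WW 𝕜 Γ).2 = 0 := by
    intro z hz
    have hcl : IsClosed {z : JL 𝕜 A | (z : WW 𝕜 Γ).2 = 0} :=
      isClosed_eq (continuous_snd.comp continuous_subtype_val) continuous_const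
    refine closure_minimal ?_ hcl hz
    intro z hz
    induction hz using Submodule.span_induction with
    | mem z hz => obtain ⟨n, rfl⟩ := hz; rfl
    | zero => rfl
    | add v w _ _ hv hw =>
      change (v : WW 𝕜 Γ).2 + (w : WW 𝕜 Γ).2 = 0
      rw [hv, hw, add_zero]
    | smul r w _ hw =>
      change r • (w : WW 𝕜 Γ).2 = 0
      rw [hw, smul_zero]
  have h8 := h7 _ h6
  have h9 : (lp.single (E := fun _ : Γ => 𝕜) 2 γ (1 : 𝕜)) γ = 0 := by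
    have : ((gJ A γ : JL 𝕜 A) : WW 𝕜 Γ).2 γ = 0 := by rw [h8]; rfl
    rw [← this]
    change _ = (lp.single (E := fun _ : Γ => 𝕜) 2 γ (1 : 𝕜)) γ
    congr!
  rw [single_self'] at h9
  exact one_ne_zero h9

end

end Q99.KP
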