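import Mathlib
import Pool.Agent.Q99.KP.JL
import Pool.Agent.Q99.KP.Dual

set_option autoImplicit false
set_option synthInstance.maxHeartbeats 400000

/-!
The Johnson-Lindenstrauss space has the required properties.
-/

namespace Q99.KP

open Topology
open scoped ENNReal

section

variable {𝕜 : Type*} [RCLike 𝕜] {Γ : Type*} {A : Γ → Set ℕ}

/-- The second coordinate. -/
noncomputable def sJ (A : Γ → Set ℕ) : JL 𝕜 A →L[𝕜] lp (fun _ : Γ => 𝕜) 2 :=
  LinearMap.mkContinuous
    { toFun := fun w => w.1.2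
      map_add' := fun v w => rfl
      map_smul' := fun r w => rfl } 1
    (fun w => by
      rw [one_mul, norm_coe']
      exact le_max_right _ _)

lemma sJ_apply (A : Γ → Set ℕ) (w : JL 𝕜 A) : sJ A w = w.1.2 := rfl

lemma xsum_le (A : Γ → Set ℕ) (F : Finset ℕ) (u : ℕ → 𝕜) (hu : ∀ n, ‖u n‖ ≤ 1) :
    ‖(∑ n ∈ F, u n • xJ A n : JL 𝕜 A)‖ ≤ 1 := by
  classical
  rw [norm_coe']
  refine max_le ?_ ?_
  · refine norm_le_lp _ zero_le_one fun n => ?_
    rw [sum_x_fst]
    by_cases hn : n ∈ F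
    · rw [if_pos hn]; exact hu n
    · rw [if_neg hn, norm_zero]; exact zero_le_one
  · rw [sum_x_snd, norm_zero]; exact zero_le_one

lemma fn_x (A : Γ → Set ℕ) (m n : ℕ) : fn A n (xJ (𝕜 := 𝕜) A m) = if m = n then 1 else 0 := by
  rw [fn_apply]
  change ind 𝕜 {m} n = _
  by_cases h : m = n
  · subst h; rw [ind_mem (Set.mem_singleton m), if_pos rfl]
  · rw [ind_not (by simpa using Ne.symm h), if_neg h]

lemma jlike (hA : AD A) : JLike (J := JL 𝕜 A) (xJ A) (gJ A) (fn A) (sJ A) where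
  ext := fun _ _ h1 h2 => ext_fun h1 h2
  sx := fun _ => rfl
  sg := fun _ => rfl
  xsum := xsum_le A
  sq := fun φ hφ F => sq_sum_le hA φ hφ F
  fn := fn_norm A
  fx := fun n m => fn_x A m n

theorem uncountable_seq : Uncountable (ℕ → Bool) := by
  rw [← Cardinal.aleph0_lt_mk_iff]
  simpa using Cardinal.aleph0_lt_continuum

instance completeJL : CompleteSpace (JL 𝕜 A) :=
  (Submodule.isClosed_topologicalClosure _).completeSpace_coe

end

end Q99.KP
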